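import Pool.Agent.helper17.EXC.Spec

/-!
# Project EXC, row YST: every `g E β` is a multiple of some `u E β'`, `u ∈ U`
-/

set_option autoImplicit false

open Finset

namespace Pool.Agent.EXC

/-- the vectors `c • u (E β')` -/
def YST_S {n : ℕ} (C : Matrix (Fin n) (Fin n) ℤ) [IsC C] (F : Type) [Field F] (v : Lm C F) : Prop :=
  ∃ u ∈ UG C F, ∃ β', ip C β' β' = 2 ∧ ∃ c : F, c ≠ 0 ∧ v = c • (u (E C β') : Lm C F)

theorem YST_xe_zero {n : ℕ} (C : Matrix (Fin n) (Fin n) ℤ) [IsC C] (F : Type) [Field F] (a v : Lm C F) :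
    xe C a 0 v = v := by
  simp [xe]

theorem YST_xe_smul {n : ℕ} (C : Matrix (Fin n) (Fin n) ℤ) [IsC C] (F : Type) [Field F] (a v : Lm C F) (c t : F) :
    xe C a t (c • v) = c • xe C a t v := by
  rw [xe, xe, br_smul_right, fm_smul_right, smul_add, smul_add, smul_comm t c, smul_smul c (t ^ 2 * fm C a v), mul_left_comm]

/-- the simple root is positive -/
theorem YST_pos {n : ℕ} (i : Fin n) : Pos (sr i : Fin n → ℤ) := by
  intro j
  rw [sr]
  by_cases h : j = i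
  · subst h; simp
  · simp [h]

theorem YST_inv {n : ℕ} (C : Matrix (Fin n) (Fin n) ℤ) [IsC C] (F : Type) [Field F] (a : Lm C F)
    (h1 : ∀ t, ∃ h ∈ GE C F, IsX C a t h) (h2 : ∀ s t g h, IsX C a s g → IsX C a t h → IsX C a (s + t) (g * h))
    (t : F) (g : Lm C F ≃ₗ[F] Lm C F) (hg : IsX C a t g) : IsX C a (-t) g⁻¹ := by
  obtain ⟨h, _, hh⟩ := h1 (-t)
  have h3 := h2 _ _ _ _ hg hh
  rw [add_neg_cancel] at h3
  have h4 : g * h = 1 := by
    apply LinearEquiv.ext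
    intro v
    rw [h3 v, YST_xe_zero]
    rfl
  have h5 : g⁻¹ = h := inv_eq_of_mul_eq_one_right h4
  rw [h5]
  exact hh

theorem YST (hEXF : EXF_stmt) (hGEN : GEN_stmt) (hUIN : UIN_stmt) (hRKO : RKO_stmt) : YST_stmt := by
  intro n C _ F _ hβ g hg β hβ2
  obtain ⟨-, hE, hX, -⟩ := hEXF n C F hβ
  -- generators
  have hplus : ∀ (i : Fin n) (t : F) (g : Lm C F ≃ₗ[F] Lm C F), IsX C (E C (sr i)) t g → g ∈ UG C F := by
    intro i t g hg
    exact Subgroup.subset_closure ⟨sr i, ip_sr_self C i, YST_pos i, t, hg⟩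
  have hstab1 : ∀ (i : Fin n) (t : F) (g : Lm C F ≃ₗ[F] Lm C F), IsX C (E C (sr i)) t g → ∀ v, YST_S C F v → YST_S C F (g v) := by
    intro i t g hg v hv
    obtain ⟨u, hu, β', hβ', c, hc, rfl⟩ := hv
    refine ⟨g * u, (UG C F).mul_mem (hplus i t g hg) hu, β', hβ', c, hc, ?_⟩
    rw [map_smul]
    rfl
  have hstab2 : ∀ (i : Fin n) (t : F) (g : Lm C F ≃ₗ[F] Lm C F), IsX C (E C (-sr i)) t g → ∀ v, YST_S C F v → YST_S C F (g v) := by
    intro i t g hg v hv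
    obtain ⟨u, hu, β', hβ', c, hc, rfl⟩ := hv
    obtain ⟨hU1, hU2, hU3⟩ := hUIN n C F hβ i
    obtain ⟨u', hu', s, g₁, hg₁, rfl⟩ := hU2 u hu
    have hn := hU1 u' hu' t g (Or.inr hg)
    obtain ⟨β'', hβ'', c', hc', s', he⟩ := hRKO n C F (sr i) β' s t (ip_sr_self C i) hβ'
    obtain ⟨-, -, -, -, h5, -⟩ := hX (E C (sr i)) (hE _ (ip_sr_self C i))
    obtain ⟨g₂, -, hg₂⟩ := h5 s'
    refine ⟨g * u' * g⁻¹ * g₂, (UG C F).mul_mem (hU3 hn) (hplus i s' g₂ hg₂), β'', hβ'', c * c', mul_ne_zero hc hc', ?_⟩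
    have e1 : (g * u' * g⁻¹ * g₂) (E C β'') = g (u' (g⁻¹ (g₂ (E C β'')))) := rfl
    have e2 : (u' * g₁) (E C β') = u' (g₁ (E C β')) := rfl
    have e3 : g (g₁ (E C β')) = c' • g₂ (E C β'') := by
      rw [hg, hg₁, he, hg₂]
    have e4 : g₁ (E C β') = c' • g⁻¹ (g₂ (E C β'')) := by
      rw [← map_smul, ← e3]
      exact (LinearEquiv.symm_apply_apply g _).symm
    rw [e1, e2, map_smul, e4, map_smul, map_smul, smul_smul]
  have hstab : ∀ g ∈ Subgroup.closure {g : Lm C F ≃ₗ[F] Lm C F | ∃ i t, IsX C (E C (sr i)) t g ∨ IsX C (E C (-sr i)) t g},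
      ∀ v, YST_S C F v → YST_S C F (g v) := by
    intro g hg
    induction hg using Subgroup.closure_induction_left with
    | one => intro v hv; exact hv
    | mul_left x hx y hy ih =>
      intro v hv
      obtain ⟨i, t, hx | hx⟩ := hx
      · exact hstab1 i t x hx _ (ih v hv)
      · exact hstab2 i t x hx _ (ih v hv)
    | inv_mul_cancel x hx y hy ih =>
      intro v hv
      obtain ⟨i, t, hx | hx⟩ := hx
      · obtain ⟨-, -, -, -, h5, -, -, -, h9⟩ := hX (E C (sr i)) (hE _ (ip_sr_self C i))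
        exact hstab1 i (-t) x⁻¹ (YST_inv C F _ h5 h9 t x hx) _ (ih v hv)
      · obtain ⟨-, -, -, -, h5, -, -, -, h9⟩ := hX (E C (-sr i)) (hE _ (neg_root C (ip_sr_self C i)))
        exact hstab2 i (-t) x⁻¹ (YST_inv C F _ h5 h9 t x hx) _ (ih v hv)
  have hg' : g ∈ Subgroup.closure {g : Lm C F ≃ₗ[F] Lm C F | ∃ i t, IsX C (E C (sr i)) t g ∨ IsX C (E C (-sr i)) t g} := by
    have hle : GE C F ≤ Subgroup.closure {g : Lm C F ≃ₗ[F] Lm C F | ∃ i t, IsX C (E C (sr i)) t g ∨ IsX C (E C (-sr i)) t g} := by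
      rw [GE, Subgroup.closure_le]
      rintro g ⟨α, hα, t, hgt⟩
      exact hGEN n C F hβ α hα t g hgt
    exact hle hg
  obtain ⟨u, hu, β', hβ', c, hc, he⟩ := hstab g hg' (E C β) ⟨1, (UG C F).one_mem, β, hβ2, 1, one_ne_zero, (one_smul F _).symm⟩
  exact ⟨u, hu, β', hβ', c, hc, he⟩

end Pool.Agent.EXC
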